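import Mathlib

/-!
# Bootstrap percolation on Galton–Watson trees: the exponential lower bound

`r`-neighbour bootstrap percolation on a Galton–Watson tree with offspring law `ξ`, `ξ 0 = 0`,
of mean `b` has almost surely critical probability at least `exp (- b / (r - 1))`.

Averaging the binomial tail `B k (r-1) y = P (Bin (k, y) ≤ r - 1)` against `dy / y ^ 2` over
`[exp (- b / (r - 1)), 1]` yields a level `y` with `(1 - p) E B ξ (r-1) y ≥ 1 - y`; so a vertex
stays healthy (given a healthy parent) with positive probability, and then a fort exists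
almost surely.
-/

open MeasureTheory Set
open scoped ENNReal unitInterval

namespace Pool.Agent.Results.MP_12274d_pr.ExponentialLowerBound

/-- The probability that a binomial variable with parameters `k`, `y` is at most `s`. -/
noncomputable def B (k s : ℕ) (y : ℝ) : ℝ :=
  ∑ j ∈ Finset.range (s + 1), (k.choose j : ℝ) * y ^ j * (1 - y) ^ (k - j)

lemma B_succ (k s : ℕ) (y : ℝ) :
    B k (s + 1) y = B k s y + (k.choose (s + 1) : ℝ) * y ^ (s + 1) * (1 - y) ^ (k - (s + 1)) := by
  rw [B, Finset.sum_range_succ]; rfl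

lemma B_deriv (k s : ℕ) (y : ℝ) :
    HasDerivAt (B k s)
      (-(((s + 1 : ℕ) : ℝ) * (k.choose (s + 1) : ℝ) * y ^ s * (1 - y) ^ (k - s - 1))) y := by
  induction s with
  | zero =>
    have h1 : B k 0 = fun y => (1 - y) ^ k := by
      funext y; simp [B]
    rw [h1]
    have h2 := ((hasDerivAt_id y).const_sub 1).fun_pow k
    refine h2.congr_deriv ?_
    simp
  | succ s ih =>
    have h1 : B k (s + 1) = fun y => B k s y +
        (k.choose (s + 1) : ℝ) * y ^ (s + 1) * (1 - y) ^ (k - (s + 1)) := by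
      funext y; exact B_succ k s y
    rw [h1]
    have h2 := ((hasDerivAt_id y).const_sub 1).fun_pow (k - (s + 1))
    have h3 := ((hasDerivAt_pow (s + 1) y).const_mul (k.choose (s + 1) : ℝ)).fun_mul h2
    refine (ih.fun_add h3).congr_deriv ?_
    have h4 : (k.choose (s + 1 + 1) : ℝ) * ((s + 1 + 1 : ℕ) : ℝ) =
        (k.choose (s + 1) : ℝ) * ((k - (s + 1) : ℕ) : ℝ) := by
      exact_mod_cast Nat.choose_succ_right_eq k (s + 1)
    have h5 : k - s - 1 = k - (s + 1) := by omega
    simp only [id, Nat.add_sub_cancel]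
    rw [h5]
    have h6 : ((s + 1 + 1 : ℕ) : ℝ) * (k.choose (s + 1 + 1) : ℝ) =
        (k.choose (s + 1) : ℝ) * ((k - (s + 1) : ℕ) : ℝ) := by
      rw [← h4]; ring
    rw [h6]
    ring

lemma B_continuous (k s : ℕ) : Continuous (B k s) :=
  continuous_iff_continuousAt.2 fun y => (B_deriv k s y).continuousAt

lemma B_antitone (k s : ℕ) : AntitoneOn (B k s) (Icc 0 1) := by
  apply antitoneOn_of_deriv_nonpos (convex_Icc 0 1) (B_continuous k s).continuousOn
  · intro y _
    exact (B_deriv k s y).differentiableAt.differentiableWithinAt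
  · intro y hy
    rw [interior_Icc] at hy
    rw [(B_deriv k s y).deriv]
    have h1 : 0 ≤ y := hy.1.le
    have h2 : 0 ≤ 1 - y := by linarith [hy.2]
    have : 0 ≤ ((s + 1 : ℕ) : ℝ) * (k.choose (s + 1) : ℝ) * y ^ s * (1 - y) ^ (k - s - 1) := by
      positivity
    linarith

lemma B_zero (k s : ℕ) : B k s 0 = 1 := by
  rw [B, Finset.sum_eq_single 0]
  · simp
  · intro j _ hj
    simp [hj]
  · simp

lemma B_nonneg (k s : ℕ) {y : ℝ} (h0 : 0 ≤ y) (h1 : y ≤ 1) : 0 ≤ B k s y := by
  apply Finset.sum_nonneg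
  intro j _
  have : 0 ≤ 1 - y := by linarith
  positivity

lemma B_le_one (k s : ℕ) {y : ℝ} (h0 : 0 ≤ y) (h1 : y ≤ 1) : B k s y ≤ 1 := by
  rw [← B_zero k s]
  exact B_antitone k s ⟨le_refl _, zero_le_one⟩ ⟨h0, h1⟩ h0

lemma B_self (k : ℕ) (y : ℝ) : B k k y = 1 := by
  have h := add_pow y (1 - y) k
  have h2 : y + (1 - y) = 1 := by ring
  rw [h2, one_pow] at h
  refine Eq.trans ?_ h.symm
  rw [B]
  apply Finset.sum_congr rfl
  intro j _
  ring

lemma B_one_of_lt {k s : ℕ} (h : s < k) : B k s 1 = 0 := by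
  apply Finset.sum_eq_zero
  intro j hj
  rw [Finset.mem_range] at hj
  have : k - j ≠ 0 := by omega
  simp [this]

/-- `s P(X > s) ≤ E (X ; X > s)` for a binomial variable. -/
lemma tail_le (K : ℕ) {y : ℝ} (h0 : 0 ≤ y) (h1 : y ≤ 1) (d : ℕ) : ∀ S : ℕ, S + d = K →
    ((S + 1 : ℕ) : ℝ) * (1 - B (K + 1) (S + 1) y) ≤ ((K + 1 : ℕ) : ℝ) * y * (1 - B K S y) := by
  induction d with
  | zero =>
    intro S hS
    obtain rfl : S = K := by omega
    rw [B_self, B_self]; simp
  | succ d ih =>
    intro S hS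
    have h2 := ih (S + 1) (by omega)
    rw [B_succ (K + 1) (S + 1), B_succ K S] at h2
    have h3 : ((K + 1 : ℕ) : ℝ) * (K.choose (S + 1) : ℝ) =
        ((K + 1).choose (S + 1 + 1) : ℝ) * ((S + 1 + 1 : ℕ) : ℝ) := by
      exact_mod_cast Nat.add_one_mul_choose_eq K (S + 1)
    have h4 : K + 1 - (S + 1 + 1) = K - (S + 1) := by omega
    rw [h4] at h2
    have h5 := B_le_one (K + 1) (S + 1) h0 h1
    have h6 : ((K + 1 : ℕ) : ℝ) * y * ((K.choose (S + 1) : ℝ) * y ^ (S + 1) *
        (1 - y) ^ (K - (S + 1))) = ((S + 1 + 1 : ℕ) : ℝ) *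
        (((K + 1).choose (S + 1 + 1) : ℝ) * y ^ (S + 1 + 1) * (1 - y) ^ (K - (S + 1))) := by
      calc ((K + 1 : ℕ) : ℝ) * y * ((K.choose (S + 1) : ℝ) * y ^ (S + 1) *
        (1 - y) ^ (K - (S + 1))) = (((K + 1 : ℕ) : ℝ) * (K.choose (S + 1) : ℝ)) *
          (y ^ (S + 1 + 1) * (1 - y) ^ (K - (S + 1))) := by ring
        _ = _ := by rw [h3]; ring
    push_cast at h2 h6 ⊢
    nlinarith [h2, h6, h5]

/-- The integral of a binomial tail against `dy / y ^ 2`. -/
lemma integral_B (K S : ℕ) (hSK : S ≤ K) {a : ℝ} (ha : 0 < a) (ha1 : a ≤ 1) :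
    1 / a - ((K + 1 : ℕ) : ℝ) / ((S + 1 : ℕ) : ℝ) ≤
      ∫ y in a..1, B (K + 1) (S + 1) y / y ^ 2 := by
  set c : ℝ := ((K + 1 : ℕ) : ℝ) / ((S + 1 : ℕ) : ℝ) with hc
  have hS0 : (0 : ℝ) < ((S + 1 : ℕ) : ℝ) := by positivity
  have hder : ∀ y ∈ uIcc a 1, HasDerivAt
      (fun y => -(B (K + 1) (S + 1) y / y) + c * B K S y) (B (K + 1) (S + 1) y / y ^ 2) y := by
    intro y hy
    rw [uIcc_of_le ha1] at hy
    have hy0 : 0 < y := lt_of_lt_of_le ha hy.1
    have h1 := ((B_deriv (K + 1) (S + 1) y).fun_div (hasDerivAt_id y) hy0.ne').fun_neg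
    have h2 := (B_deriv K S y).const_mul c
    refine (h1.fun_add h2).congr_deriv ?_
    have h3 : ((K + 1 : ℕ) : ℝ) * (K.choose (S + 1) : ℝ) =
        ((K + 1).choose (S + 1 + 1) : ℝ) * ((S + 1 + 1 : ℕ) : ℝ) := by
      exact_mod_cast Nat.add_one_mul_choose_eq K (S + 1)
    have h4 : K + 1 - (S + 1) - 1 = K - S - 1 := by omega
    have h5 : c * (((S + 1 : ℕ) : ℝ) * (K.choose (S + 1) : ℝ)) =
        ((S + 1 + 1 : ℕ) : ℝ) * ((K + 1).choose (S + 1 + 1) : ℝ) := by
      rw [hc, mul_comm ((S + 1 + 1 : ℕ) : ℝ), ← h3]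
      field_simp
    have h6 : c * -(((S + 1 : ℕ) : ℝ) * (K.choose (S + 1) : ℝ) * y ^ S * (1 - y) ^ (K - S - 1)) =
        -(((S + 1 + 1 : ℕ) : ℝ) * ((K + 1).choose (S + 1 + 1) : ℝ)) * y ^ S *
          (1 - y) ^ (K - S - 1) := by
      rw [← h5]; ring
    rw [h6, h4]
    simp only [id]
    field_simp
    ring
  have hint : IntervalIntegrable (fun y => B (K + 1) (S + 1) y / y ^ 2) volume a 1 := by
    apply ContinuousOn.intervalIntegrable
    rw [uIcc_of_le ha1]
    apply ContinuousOn.div (B_continuous _ _).continuousOn (by fun_prop)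
    intro y hy
    have : 0 < y := lt_of_lt_of_le ha hy.1
    positivity
  rw [intervalIntegral.integral_eq_sub_of_hasDerivAt hder hint]
  have h1 := tail_le K ha.le ha1 (K - S) S (by omega)
  have h2 : (1 - B (K + 1) (S + 1) a) / a ≤ c * (1 - B K S a) := by
    rw [div_le_iff₀ ha, hc]
    have : ((K + 1 : ℕ) : ℝ) / ((S + 1 : ℕ) : ℝ) * (1 - B K S a) * a =
        (((K + 1 : ℕ) : ℝ) * a * (1 - B K S a)) / ((S + 1 : ℕ) : ℝ) := by ring
    rw [this, le_div_iff₀ hS0]
    linarith [h1]
  have h3 : B (K + 1) (S + 1) 1 ≤ c * B K S 1 := by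
    rcases Nat.lt_or_ge S K with h | h
    · rw [B_one_of_lt (show S + 1 < K + 1 by omega)]
      have := B_nonneg K S (y := 1) zero_le_one le_rfl
      positivity
    · obtain rfl : S = K := by omega
      rw [B_self, B_self, hc, div_self hS0.ne']; norm_num
  have h4 : (1 - B (K + 1) (S + 1) a) / a = 1 / a - B (K + 1) (S + 1) a / a := by ring
  simp only [div_one]
  rw [h4] at h2
  nlinarith [h2, h3]

lemma integral_one_sub {a : ℝ} (ha : 0 < a) (ha1 : a ≤ 1) :
    ∫ y in a..1, (1 - y) / y ^ 2 = 1 / a - 1 + Real.log a := by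
  have hder : ∀ y ∈ uIcc a 1, HasDerivAt
      (fun y => -(y⁻¹) - Real.log y) ((1 - y) / y ^ 2) y := by
    intro y hy
    rw [uIcc_of_le ha1] at hy
    have hy0 : 0 < y := lt_of_lt_of_le ha hy.1
    refine ((hasDerivAt_inv hy0.ne').fun_neg.fun_sub (Real.hasDerivAt_log hy0.ne')).congr_deriv ?_
    field_simp
  have hint : IntervalIntegrable (fun y : ℝ => (1 - y) / y ^ 2) volume a 1 := by
    apply ContinuousOn.intervalIntegrable
    rw [uIcc_of_le ha1]
    apply ContinuousOn.div (by fun_prop) (by fun_prop)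
    intro y hy
    have : 0 < y := lt_of_lt_of_le ha hy.1
    positivity
  rw [intervalIntegral.integral_eq_sub_of_hasDerivAt hder hint]
  simp
  ring

/-- The averaging argument. -/
lemma exists_level (w : ℕ → ℝ) (hw0 : ∀ k, 0 ≤ w k) (hw1 : HasSum w 1) (b : ℝ)
    (hb : HasSum (fun k : ℕ => (k : ℝ) * w k) b) (S : ℕ) (hsupp : ∀ k < S + 1, w k = 0)
    (hb0 : 0 < b) (p : ℝ) (hp0 : 0 ≤ p) (hp : p < Real.exp (-(b / ((S + 1 : ℕ) : ℝ)))) :
    ∃ y : ℝ, 0 ≤ y ∧ y < 1 ∧ 1 - y ≤ (1 - p) * ∑' k, w k * B k (S + 1) y := by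
  set a : ℝ := Real.exp (-(b / ((S + 1 : ℕ) : ℝ))) with ha
  have hS0 : (0 : ℝ) < ((S + 1 : ℕ) : ℝ) := by positivity
  have ha0 : 0 < a := Real.exp_pos _
  have hL : 0 < b / ((S + 1 : ℕ) : ℝ) := by positivity
  have ha1 : a < 1 := by rw [ha]; rw [Real.exp_lt_one_iff]; linarith
  by_contra hcon
  push Not at hcon
  have hp1 : 0 ≤ 1 - p := by linarith
  have hsum : ∀ y : ℝ, 0 ≤ y → y ≤ 1 → Summable (fun k => w k * B k (S + 1) y) := by
    intro y h0 h1
    refine Summable.of_nonneg_of_le (fun k => mul_nonneg (hw0 k) (B_nonneg k _ h0 h1))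
      (fun k => ?_) hw1.summable
    exact mul_le_of_le_one_right (hw0 k) (B_le_one k _ h0 h1)
  have hfin : ∀ N : ℕ, (1 - p) * ∑ k ∈ Finset.range N,
      w k * (1 / a - (k : ℝ) / ((S + 1 : ℕ) : ℝ)) ≤ 1 / a - 1 + Real.log a := by
    intro N
    have hii : ∀ k, IntervalIntegrable (fun y => B k (S + 1) y / y ^ 2) volume a 1 := by
      intro k
      apply ContinuousOn.intervalIntegrable
      rw [uIcc_of_le ha1.le]
      apply ContinuousOn.div (B_continuous _ _).continuousOn (by fun_prop)
      intro y hy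
      have : 0 < y := lt_of_lt_of_le ha0 hy.1
      positivity
    have h1 : ∑ k ∈ Finset.range N, w k * (1 / a - (k : ℝ) / ((S + 1 : ℕ) : ℝ)) ≤
        ∑ k ∈ Finset.range N, w k * ∫ y in a..1, B k (S + 1) y / y ^ 2 := by
      apply Finset.sum_le_sum
      intro k _
      rcases Nat.lt_or_ge k (S + 1) with hk | hk
      · rw [hsupp k hk]; simp
      · obtain ⟨K, rfl⟩ : ∃ K, k = K + 1 := ⟨k - 1, by omega⟩
        exact mul_le_mul_of_nonneg_left (integral_B K S (by omega) ha0 ha1.le) (hw0 _)
    have h2 : (1 - p) * ∑ k ∈ Finset.range N, w k * ∫ y in a..1, B k (S + 1) y / y ^ 2 =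
        ∫ y in a..1, (1 - p) * ∑ k ∈ Finset.range N, w k * (B k (S + 1) y / y ^ 2) := by
      rw [intervalIntegral.integral_const_mul, intervalIntegral.integral_finsetSum]
      · congr 1
        apply Finset.sum_congr rfl
        intro k _
        rw [intervalIntegral.integral_const_mul]
      · intro k _
        exact (hii k).const_mul _
    have h3 : ∫ y in a..1, (1 - p) * ∑ k ∈ Finset.range N, w k * (B k (S + 1) y / y ^ 2) ≤
        ∫ y in a..1, (1 - y) / y ^ 2 := by
      apply intervalIntegral.integral_mono_on_of_le_Ioo ha1.le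
      · apply IntervalIntegrable.const_mul
        apply ContinuousOn.intervalIntegrable
        rw [uIcc_of_le ha1.le]
        apply continuousOn_finsetSum
        intro k _
        apply ContinuousOn.mul continuousOn_const
        apply ContinuousOn.div (B_continuous _ _).continuousOn (by fun_prop)
        intro y hy
        have : 0 < y := lt_of_lt_of_le ha0 hy.1
        positivity
      · apply ContinuousOn.intervalIntegrable
        rw [uIcc_of_le ha1.le]
        apply ContinuousOn.div (by fun_prop) (by fun_prop)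
        intro y hy
        have : 0 < y := lt_of_lt_of_le ha0 hy.1
        positivity
      · intro y hy
        have hy0 : 0 < y := lt_trans ha0 hy.1
        have h4 := hcon y hy0.le hy.2
        have h5 : ∑ k ∈ Finset.range N, w k * B k (S + 1) y ≤ ∑' k, w k * B k (S + 1) y :=
          (hsum y hy0.le hy.2.le).sum_le_tsum _
            (fun k _ => mul_nonneg (hw0 k) (B_nonneg k _ hy0.le hy.2.le))
        have h6 : (1 - p) * ∑ k ∈ Finset.range N, w k * (B k (S + 1) y / y ^ 2) =
            ((1 - p) * ∑ k ∈ Finset.range N, w k * B k (S + 1) y) / y ^ 2 := by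
          rw [Finset.mul_sum, Finset.mul_sum, Finset.sum_div]
          apply Finset.sum_congr rfl
          intro k _
          ring
        rw [h6]
        apply div_le_div_of_nonneg_right _ (by positivity)
        exact le_trans (mul_le_mul_of_nonneg_left h5 hp1) h4.le
    calc (1 - p) * ∑ k ∈ Finset.range N, w k * (1 / a - (k : ℝ) / ((S + 1 : ℕ) : ℝ))
        ≤ (1 - p) * ∑ k ∈ Finset.range N, w k * ∫ y in a..1, B k (S + 1) y / y ^ 2 :=
          mul_le_mul_of_nonneg_left h1 hp1
      _ ≤ _ := by rw [h2]; exact h3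
      _ = _ := integral_one_sub ha0 ha1.le
  have hlim : HasSum (fun k : ℕ => w k * (1 / a - (k : ℝ) / ((S + 1 : ℕ) : ℝ)))
      (1 / a - b / ((S + 1 : ℕ) : ℝ)) := by
    have h1 := (hw1.mul_right (1 / a)).sub (hb.div_const ((S + 1 : ℕ) : ℝ))
    rw [one_mul] at h1
    refine h1.congr_fun ?_ |> fun h => h
    intro k
    ring
  have hT := (hlim.tendsto_sum_nat.const_mul (1 - p))
  have h7 : (1 - p) * (1 / a - b / ((S + 1 : ℕ) : ℝ)) ≤ 1 / a - 1 + Real.log a :=
    le_of_tendsto' hT hfin
  have h8 : Real.log a = -(b / ((S + 1 : ℕ) : ℝ)) := by rw [ha, Real.log_exp]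
  rw [h8] at h7
  set L := b / ((S + 1 : ℕ) : ℝ) with hLdef
  have h9 : 1 ≤ p * (1 / a - L) := by nlinarith
  have h10 : p * (1 / a - L) ≤ p * (1 / a) := mul_le_mul_of_nonneg_left (by linarith) hp0
  have h11 : 1 ≤ p * (1 / a) := le_trans h9 h10
  rw [mul_one_div, le_div_iff₀ ha0, one_mul] at h11
  linarith


/-- The label function seen from the child `i` of the root. -/
def sub {X : Type} (z : List ℕ → X) (i : ℕ) : List ℕ → X := fun v => z (i :: v)

/-- Glue a root label and the labels of the subtrees. -/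
def glue {X : Type} (x : X × (ℕ → List ℕ → X)) : List ℕ → X
  | [] => x.1
  | i :: v => x.2 i v

lemma measurable_glue {X : Type} [MeasurableSpace X] : Measurable (glue (X := X)) := by
  rw [measurable_pi_iff]
  intro v
  cases v with
  | nil => exact measurable_fst
  | cons i v =>
    exact (measurable_pi_apply v).comp ((measurable_pi_apply i).comp measurable_snd)

lemma measurable_sub {X : Type} [MeasurableSpace X] (i : ℕ) :
    Measurable (fun z : List ℕ → X => sub z i) := by
  rw [measurable_pi_iff]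
  intro v
  exact measurable_pi_apply (i :: v)

lemma glue_map {X : Type} [MeasurableSpace X] (μ : Measure X) [IsProbabilityMeasure μ] :
    (μ.prod (Measure.infinitePi fun _ : ℕ => Measure.infinitePi fun _ : List ℕ => μ)).map glue =
      Measure.infinitePi fun _ : List ℕ => μ := by
  classical
  apply Measure.eq_infinitePi
  intro s t ht
  rw [Measure.map_apply measurable_glue (.pi s.countable_toSet fun _ _ => ht _)]
  set J : Finset ℕ := s.biUnion (fun v => match v with | [] => ∅ | i :: _ => {i}) with hJ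
  have hinj : ∀ i : ℕ, Function.Injective (fun v : List ℕ => i :: v) :=
    fun i a b h => by simpa using h
  set si : ℕ → Finset (List ℕ) := fun i => s.preimage (fun v => i :: v) (hinj i).injOn with hsi
  have hmemJ : ∀ i v, i :: v ∈ s → i ∈ J := by
    intro i v h
    rw [hJ, Finset.mem_biUnion]
    exact ⟨i :: v, h, by simp⟩
  have hpre : glue ⁻¹' (Set.pi (s : Set (List ℕ)) t) =
      (if [] ∈ s then t [] else Set.univ) ×ˢ
        (Set.pi (J : Set ℕ) fun i => Set.pi (si i : Set (List ℕ)) fun v => t (i :: v)) := by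
    ext ⟨a, f⟩
    simp only [Set.mem_preimage, Set.mem_pi, Finset.mem_coe, Set.mem_prod]
    constructor
    · intro h
      refine ⟨?_, ?_⟩
      · split_ifs with h0
        · exact h [] h0
        · trivial
      · intro i _ v hv
        rw [hsi, Finset.mem_preimage] at hv
        exact h (i :: v) hv
    · rintro ⟨h1, h2⟩ v hv
      cases v with
      | nil => rw [if_pos hv] at h1; exact h1
      | cons i v =>
        exact h2 i (hmemJ i v hv) v (by rw [hsi, Finset.mem_preimage]; exact hv)
  rw [hpre, Measure.prod_prod, Measure.infinitePi_pi]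
  · have h1 : ∀ i ∈ J, (Measure.infinitePi fun _ : List ℕ => μ)
        (Set.pi (si i : Set (List ℕ)) fun v => t (i :: v)) = ∏ v ∈ si i, μ (t (i :: v)) := by
      intro i _
      rw [Measure.infinitePi_pi]
      intro v _
      exact ht _
    rw [Finset.prod_congr rfl h1, Finset.prod_sigma']
    have h2 : ∏ x ∈ J.sigma si, μ (t (x.1 :: x.2)) = ∏ v ∈ s.filter (fun v => v ≠ []), μ (t v) := by
      apply Finset.prod_nbij' (fun x => x.1 :: x.2) (fun v => ⟨v.headI, v.tail⟩)
      · rintro ⟨i, v⟩ h
        rw [Finset.mem_sigma, hsi] at h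
        simp only [Finset.mem_preimage] at h
        simp [h.2]
      · intro v h
        rw [Finset.mem_filter] at h
        cases v with
        | nil => exact absurd rfl h.2
        | cons i v =>
          rw [Finset.mem_sigma]
          refine ⟨hmemJ i v h.1, ?_⟩
          rw [hsi, Finset.mem_preimage]
          exact h.1
      · rintro ⟨i, v⟩ _
        rfl
      · intro v h
        rw [Finset.mem_filter] at h
        cases v with
        | nil => exact absurd rfl h.2
        | cons i v => rfl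
      · rintro ⟨i, v⟩ _
        rfl
    rw [h2]
    have h3 := Finset.prod_filter_mul_prod_filter_not s (fun v : List ℕ => v ≠ []) (fun v => μ (t v))
    rw [← h3, mul_comm]
    congr 1
    have h4 : s.filter (fun v : List ℕ => ¬ v ≠ []) = if [] ∈ s then {[]} else ∅ := by
      ext v
      rw [Finset.mem_filter, not_not]
      split_ifs with h0
      · rw [Finset.mem_singleton]
        exact ⟨fun h => h.2, fun h => ⟨h ▸ h0, h⟩⟩
      · constructor
        · rintro ⟨h1, h2⟩
          exact absurd (h2 ▸ h1) h0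
        · intro h; simp at h
    rw [h4]
    split_ifs with h0
    · simp
    · simp
  · intro i _
    exact MeasurableSet.pi (Finset.countable_toSet _) fun v _ => ht _

/-- The key product formula: root and subtrees are independent. -/
lemma key {X : Type} [MeasurableSpace X] (μ : Measure X) [IsProbabilityMeasure μ]
    {R : Set X} (hR : MeasurableSet R) (S : Finset ℕ) {E : ℕ → Set (List ℕ → X)}
    (hE : ∀ i, MeasurableSet (E i)) :
    (Measure.infinitePi fun _ : List ℕ => μ) {z | z [] ∈ R ∧ ∀ i ∈ S, sub z i ∈ E i} =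
      μ R * ∏ i ∈ S, (Measure.infinitePi fun _ : List ℕ => μ) (E i) := by
  have hm : MeasurableSet {z : List ℕ → X | z [] ∈ R ∧ ∀ i ∈ S, sub z i ∈ E i} := by
    have h1 : {z : List ℕ → X | ∀ i ∈ S, sub z i ∈ E i} =
        ⋂ i ∈ S, (fun z : List ℕ → X => sub z i) ⁻¹' (E i) := by
      ext z; simp
    have h2 : MeasurableSet {z : List ℕ → X | ∀ i ∈ S, sub z i ∈ E i} := by
      rw [h1]
      exact Finset.measurableSet_biInter S fun i _ => measurable_sub i (hE i)
    exact (measurable_pi_apply [] hR).inter h2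
  conv_lhs => rw [← glue_map μ]
  rw [Measure.map_apply measurable_glue hm]
  have hpre : glue ⁻¹' {z : List ℕ → X | z [] ∈ R ∧ ∀ i ∈ S, sub z i ∈ E i} =
      R ×ˢ (Set.pi (S : Set ℕ) E) := by
    ext ⟨a, f⟩
    rfl
  rw [hpre, Measure.prod_prod, Measure.infinitePi_pi]
  intro i _
  exact hE i

/-- Product of two infinite product measures. -/
lemma prod_infinitePi {ι X Y : Type} [MeasurableSpace X] [MeasurableSpace Y]
    (μ : Measure X) (ν : Measure Y) [IsProbabilityMeasure μ] [IsProbabilityMeasure ν] :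
    ((Measure.infinitePi fun _ : ι => μ).prod (Measure.infinitePi fun _ : ι => ν)).map
      (fun q i => (q.1 i, q.2 i)) = Measure.infinitePi fun _ : ι => μ.prod ν := by
  classical
  have hmeas : Measurable (fun (q : (ι → X) × (ι → Y)) (i : ι) => (q.1 i, q.2 i)) := by fun_prop
  apply Measure.eq_infinitePi
  intro s t ht
  rw [Measure.map_apply hmeas (.pi s.countable_toSet fun _ _ => ht _)]
  have h1 : (fun (q : (ι → X) × (ι → Y)) (i : ι) => (q.1 i, q.2 i)) ⁻¹' (Set.pi (s : Set ι) t) =
      (Prod.map (Finset.restrict (π := fun _ => X) s) (Finset.restrict (π := fun _ => Y) s)) ⁻¹'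
        ((MeasurableEquiv.arrowProdEquivProdArrow X Y s).symm ⁻¹'
          (Set.pi Set.univ fun i : s => t i)) := by
    ext q
    simp only [Set.mem_preimage, Set.mem_pi, Finset.mem_coe, Set.mem_univ, forall_true_left,
      Subtype.forall]
    rfl
  rw [h1]
  have hm2 : MeasurableSet (Set.pi Set.univ fun i : s => t i) :=
    MeasurableSet.univ_pi fun i => ht i
  rw [← Measure.map_apply (by fun_prop) ((MeasurableEquiv.measurable _) hm2),
    ← Measure.map_prod_map _ _ (by fun_prop) (by fun_prop), Measure.infinitePi_map_restrict,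
    Measure.infinitePi_map_restrict]
  have h2 := (measurePreserving_arrowProdEquivProdArrow X Y s (fun _ => μ) (fun _ => ν)).symm
  rw [h2.measure_preimage_equiv, Measure.pi_pi]
  exact Finset.prod_attach s (fun i => (μ.prod ν) (t i))


/-! ## The events -/

/-- The root is not initially infected and at most `s` of its children fail `E`. -/
def Phi (s : ℕ) (E : Set (List ℕ → ℕ × Bool)) : Set (List ℕ → ℕ × Bool) :=
  {z | (z []).2 = false ∧
    ∃ S : Finset ℕ, S ⊆ Finset.range (z []).1 ∧ S.card ≤ s ∧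
      ∀ i ∈ Finset.range (z []).1, i ∉ S → sub z i ∈ E}

/-- The root has the label `(k, false)` and exactly the children in `S` fail `E`. -/
def cell (E : Set (List ℕ → ℕ × Bool)) (k : ℕ) (S : Finset ℕ) : Set (List ℕ → ℕ × Bool) :=
  {z | z [] ∈ ({(k, false)} : Set (ℕ × Bool)) ∧
    ∀ i ∈ Finset.range k, sub z i ∈ {y | i ∈ S ↔ y ∉ E}}

lemma Phi_mono (s : ℕ) {E F : Set (List ℕ → ℕ × Bool)} (h : E ⊆ F) : Phi s E ⊆ Phi s F := by
  rintro z ⟨h1, S, hS, hc, h2⟩
  exact ⟨h1, S, hS, hc, fun i hi hiS => h (h2 i hi hiS)⟩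

lemma meas_iff {E : Set (List ℕ → ℕ × Bool)} (hE : MeasurableSet E) (S : Finset ℕ) (i : ℕ) :
    MeasurableSet {y : List ℕ → ℕ × Bool | i ∈ S ↔ y ∉ E} := by
  by_cases h : i ∈ S
  · have : {y : List ℕ → ℕ × Bool | i ∈ S ↔ y ∉ E} = Eᶜ := by
      ext y; simp [h]
    rw [this]; exact hE.compl
  · have : {y : List ℕ → ℕ × Bool | i ∈ S ↔ y ∉ E} = E := by
      ext y; simp [h]
    rw [this]; exact hE

lemma meas_cell {E : Set (List ℕ → ℕ × Bool)} (hE : MeasurableSet E) (k : ℕ) (S : Finset ℕ) :
    MeasurableSet (cell E k S) := by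
  have h1 : {z : List ℕ → ℕ × Bool | ∀ i ∈ Finset.range k, sub z i ∈ {y | i ∈ S ↔ y ∉ E}} =
      ⋂ i ∈ Finset.range k, (fun z : List ℕ → ℕ × Bool => sub z i) ⁻¹' {y | i ∈ S ↔ y ∉ E} := by
    ext z; simp
  have h2 : MeasurableSet {z : List ℕ → ℕ × Bool |
      ∀ i ∈ Finset.range k, sub z i ∈ {y | i ∈ S ↔ y ∉ E}} := by
    rw [h1]
    exact Finset.measurableSet_biInter _ fun i _ => measurable_sub i (meas_iff hE S i)
  have h3 : Measurable (fun z : List ℕ → ℕ × Bool => z []) := measurable_pi_apply []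
  exact (h3 (MeasurableSet.singleton (k, false))).inter h2

lemma cell_subset_Phi (s : ℕ) (E : Set (List ℕ → ℕ × Bool)) (k : ℕ) (S : Finset ℕ)
    (hS : S ⊆ Finset.range k) (hc : S.card ≤ s) : cell E k S ⊆ Phi s E := by
  rintro z ⟨h1, h2⟩
  rw [Set.mem_singleton_iff] at h1
  refine ⟨by rw [h1], S, by rw [h1]; exact hS, hc, ?_⟩
  intro i hi hiS
  rw [h1] at hi
  have := h2 i hi
  simp only [Set.mem_ofPred_eq] at this
  by_contra hcon
  exact hiS (this.2 hcon)

lemma Phi_eq (s : ℕ) (E : Set (List ℕ → ℕ × Bool)) :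
    Phi s E = ⋃ k : ℕ, ⋃ S ∈ {S : Finset ℕ | S ⊆ Finset.range k ∧ S.card ≤ s}, cell E k S := by
  classical
  ext z
  constructor
  · rintro ⟨h1, S, hS, hc, h2⟩
    rw [Set.mem_iUnion]
    refine ⟨(z []).1, ?_⟩
    rw [Set.mem_iUnion₂]
    refine ⟨S.filter (fun i => sub z i ∉ E), ⟨(Finset.filter_subset _ _).trans hS,
      (Finset.card_filter_le _ _).trans hc⟩, ?_⟩
    refine ⟨?_, ?_⟩
    · rw [Set.mem_singleton_iff, ← h1]
    · intro i hi
      simp only [Set.mem_ofPred_eq, Finset.mem_filter]
      constructor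
      · intro h; exact h.2
      · intro h
        refine ⟨?_, h⟩
        by_contra hiS
        exact h (h2 i hi hiS)
  · intro h
    rw [Set.mem_iUnion] at h
    obtain ⟨k, h⟩ := h
    rw [Set.mem_iUnion₂] at h
    obtain ⟨S, hS, h⟩ := h
    exact cell_subset_Phi s E k S hS.1 hS.2 h

lemma meas_Phi (s : ℕ) {E : Set (List ℕ → ℕ × Bool)} (hE : MeasurableSet E) :
    MeasurableSet (Phi s E) := by
  rw [Phi_eq]
  apply MeasurableSet.iUnion
  intro k
  apply MeasurableSet.biUnion (Set.to_countable _)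
  intro S _
  exact meas_cell hE k S

lemma cell_disjoint (E : Set (List ℕ → ℕ × Bool)) {k k' : ℕ} {S S' : Finset ℕ}
    (hS : S ⊆ Finset.range k) (hS' : S' ⊆ Finset.range k')
    (hne : (⟨k, S⟩ : (_ : ℕ) × Finset ℕ) ≠ ⟨k', S'⟩) : Disjoint (cell E k S) (cell E k' S') := by
  rw [Set.disjoint_left]
  rintro z ⟨h1, h2⟩ ⟨h3, h4⟩
  rw [Set.mem_singleton_iff] at h1 h3
  have hk : k = k' := by
    rw [h1] at h3
    exact (Prod.mk.inj h3).1
  subst hk
  apply hne
  congr 1
  ext i
  by_cases hi : i ∈ Finset.range k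
  · have a := h2 i hi
    have b := h4 i hi
    simp only [Set.mem_ofPred_eq] at a b
    rw [a, b]
  · constructor
    · intro h; exact absurd (hS h) hi
    · intro h; exact absurd (hS' h) hi

/-- Bernoulli law on `Bool`. -/
noncomputable def bern (p : I) : Measure Bool :=
  ENNReal.ofReal (p : ℝ) • Measure.dirac true + ENNReal.ofReal (1 - (p : ℝ)) • Measure.dirac false

instance (p : I) : IsProbabilityMeasure (bern p) := by
  constructor
  have h1 : (0 : ℝ) ≤ p := p.2.1
  have h2 : (0 : ℝ) ≤ 1 - p := by linarith [p.2.2]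
  simp only [bern, Measure.coe_add, Measure.coe_smul, Pi.add_apply, Pi.smul_apply, measure_univ,
    smul_eq_mul, mul_one]
  rw [← ENNReal.ofReal_add h1 h2]
  simp

lemma bern_false (p : I) : (bern p).real {false} = 1 - p := by
  have h2 : (0 : ℝ) ≤ 1 - p := by linarith [p.2.2]
  rw [Measure.real, bern]
  simp [h2]

/-- Law of the labels. -/
noncomputable def lab (ξ : PMF ℕ) (p : I) : Measure (ℕ × Bool) := ξ.toMeasure.prod (bern p)

instance (ξ : PMF ℕ) (p : I) : IsProbabilityMeasure (lab ξ p) := by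
  unfold lab; infer_instance

/-- Law of the family of labels. -/
noncomputable def law (ξ : PMF ℕ) (p : I) : Measure (List ℕ → ℕ × Bool) :=
  Measure.infinitePi fun _ : List ℕ => lab ξ p

instance (ξ : PMF ℕ) (p : I) : IsProbabilityMeasure (law ξ p) := by
  unfold law; infer_instance

lemma lab_single (ξ : PMF ℕ) (p : I) (k : ℕ) :
    (lab ξ p).real {(k, false)} = (ξ k).toReal * (1 - p) := by
  rw [← bern_false p, Measure.real, lab, ← Set.singleton_prod_singleton, Measure.prod_prod,
    ENNReal.toReal_mul, PMF.toMeasure_apply_singleton _ _ (MeasurableSet.singleton k)]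
  rfl

lemma key_real (ξ : PMF ℕ) (p : I)
    {R : Set (ℕ × Bool)} (hR : MeasurableSet R) (S : Finset ℕ)
    {E : ℕ → Set (List ℕ → ℕ × Bool)} (hE : ∀ i, MeasurableSet (E i)) :
    (law ξ p).real {z | z [] ∈ R ∧ ∀ i ∈ S, sub z i ∈ E i} =
      (lab ξ p).real R * ∏ i ∈ S, (law ξ p).real (E i) := by
  rw [Measure.real, law, key _ hR S hE, ENNReal.toReal_mul, ENNReal.toReal_prod]
  rfl

lemma law_cell (ξ : PMF ℕ) (p : I) {E : Set (List ℕ → ℕ × Bool)} (hE : MeasurableSet E)
    (k : ℕ) (S : Finset ℕ) (hS : S ⊆ Finset.range k) :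
    (law ξ p).real (cell E k S) = (ξ k).toReal * (1 - p) *
      ((1 - (law ξ p).real E) ^ S.card * ((law ξ p).real E) ^ (k - S.card)) := by
  classical
  rw [cell, key_real ξ p (MeasurableSet.singleton _) (Finset.range k)
    (fun i => meas_iff hE S i), lab_single]
  congr 1
  have h1 : ∀ i ∈ Finset.range k, (law ξ p).real {y | i ∈ S ↔ y ∉ E} =
      if i ∈ S then 1 - (law ξ p).real E else (law ξ p).real E := by
    intro i _
    split_ifs with h
    · have : {y : List ℕ → ℕ × Bool | i ∈ S ↔ y ∉ E} = Eᶜ := by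
        ext y; simp [h]
      rw [this, probReal_compl_eq_one_sub hE]
    · have : {y : List ℕ → ℕ × Bool | i ∈ S ↔ y ∉ E} = E := by
        ext y; simp [h]
      rw [this]
  rw [Finset.prod_congr rfl h1, Finset.prod_ite, Finset.prod_const, Finset.prod_const]
  have h2 : (Finset.range k).filter (fun i => i ∈ S) = S := by
    ext i; rw [Finset.mem_filter]; exact ⟨fun h => h.2, fun h => ⟨hS h, h⟩⟩
  have h3 : ((Finset.range k).filter (fun i => i ∉ S)).card = k - S.card := by
    have := Finset.card_filter_add_card_filter_not (s := Finset.range k) (fun i => i ∈ S)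
    rw [h2, Finset.card_range] at this
    omega
  rw [h2, h3]

/-- Lower bound for the probability of `Phi`. -/
lemma law_Phi (ξ : PMF ℕ) (p : I) {E : Set (List ℕ → ℕ × Bool)} (hE : MeasurableSet E)
    (s K : ℕ) :
    ∑ k ∈ Finset.range K, (1 - (p : ℝ)) * ((ξ k).toReal * B k s (1 - (law ξ p).real E)) ≤
      (law ξ p).real (Phi s E) := by
  classical
  set x := (law ξ p).real E with hx
  set T : Finset ((_ : ℕ) × Finset ℕ) := (Finset.range K).sigma
    (fun k => (Finset.range (s + 1)).biUnion (fun j => Finset.powersetCard j (Finset.range k)))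
    with hT
  have hmem : ∀ q ∈ T, q.2 ⊆ Finset.range q.1 ∧ q.2.card ≤ s := by
    rintro ⟨k, S⟩ hq
    rw [hT, Finset.mem_sigma, Finset.mem_biUnion] at hq
    obtain ⟨_, j, hj, hS⟩ := hq
    rw [Finset.mem_powersetCard] at hS
    rw [Finset.mem_range] at hj
    exact ⟨hS.1, by omega⟩
  have h1 : (law ξ p).real (⋃ q ∈ T, cell E q.1 q.2) = ∑ q ∈ T, (law ξ p).real (cell E q.1 q.2) := by
    apply measureReal_biUnion_finset
    · intro q hq q' hq' hne
      exact cell_disjoint E (hmem q hq).1 (hmem q' hq').1 hne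
    · intro q _
      exact meas_cell hE _ _
    · intro q _
      exact measure_ne_top _ _
  have h2 : (law ξ p).real (⋃ q ∈ T, cell E q.1 q.2) ≤ (law ξ p).real (Phi s E) := by
    apply measureReal_mono
    · apply Set.iUnion₂_subset
      intro q hq
      exact cell_subset_Phi s E _ _ (hmem q hq).1 (hmem q hq).2
    · exact measure_ne_top _ _
  refine le_trans (le_of_eq ?_) h2
  rw [h1, hT, Finset.sum_sigma]
  apply Finset.sum_congr rfl
  intro k _
  rw [Finset.sum_biUnion, B, Finset.mul_sum, Finset.mul_sum]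
  · apply Finset.sum_congr rfl
    intro j _
    have h3 : ∀ S ∈ Finset.powersetCard j (Finset.range k),
        (law ξ p).real (cell E k S) = (ξ k).toReal * (1 - p) * ((1 - x) ^ j * x ^ (k - j)) := by
      intro S hS
      rw [Finset.mem_powersetCard] at hS
      rw [law_cell ξ p hE k S hS.1, hS.2]
    rw [Finset.sum_congr rfl h3, Finset.sum_const, Finset.card_powersetCard, Finset.card_range,
      nsmul_eq_mul]
    have h4 : 1 - (1 - x) = x := by ring
    rw [h4]
    ring
  · intro j _ j' _ hne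
    exact Finset.pairwise_disjoint_powersetCard (Finset.range k) hne


/-- The root stays healthy up to level `m`, as long as its parent is healthy. -/
def Hm (s : ℕ) : ℕ → Set (List ℕ → ℕ × Bool)
  | 0 => Set.univ
  | m + 1 => Phi s (Hm s m)

lemma meas_Hm (s m : ℕ) : MeasurableSet (Hm s m) := by
  induction m with
  | zero => exact MeasurableSet.univ
  | succ m ih => exact meas_Phi s ih

lemma Hm_anti (s : ℕ) : Antitone (Hm s) := by
  apply antitone_nat_of_succ_le
  intro m
  induction m with
  | zero => exact Set.subset_univ _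
  | succ m ih => exact Phi_mono s ih

/-- The root stays healthy for ever, as long as its parent is healthy. -/
def Hinf (s : ℕ) : Set (List ℕ → ℕ × Bool) := ⋂ m, Hm s m

lemma meas_Hinf (s : ℕ) : MeasurableSet (Hinf s) := MeasurableSet.iInter fun m => meas_Hm s m

lemma Hinf_sub (s : ℕ) : Hinf s ⊆ Phi s (Hinf s) := by
  classical
  intro z hz
  rw [Hinf, Set.mem_iInter] at hz
  refine ⟨(hz 1).1, (Finset.range (z []).1).filter (fun i => sub z i ∉ Hinf s),
    Finset.filter_subset _ _, ?_, ?_⟩
  · have h1 : ∀ i, ∃ m, sub z i ∉ Hinf s → sub z i ∉ Hm s m := by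
      intro i
      by_cases h : sub z i ∈ Hinf s
      · exact ⟨0, fun h' => absurd h h'⟩
      · have h' := h
        rw [Hinf, Set.mem_iInter] at h'
        push Not at h'
        obtain ⟨m, hm⟩ := h'
        exact ⟨m, fun _ => hm⟩
    choose m hm using h1
    obtain ⟨_, S, hS, hc, h2⟩ := hz ((Finset.range (z []).1).sup m + 1)
    refine le_trans (Finset.card_le_card ?_) hc
    intro i hi
    rw [Finset.mem_filter] at hi
    by_contra hiS
    have h3 := h2 i hi.1 hiS
    exact hm i hi.2 (Hm_anti s (Finset.le_sup (f := m) hi.1) h3)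
  · intro i hi hiS
    rw [Finset.mem_filter] at hiS
    by_contra hcon
    exact hiS ⟨hi, hcon⟩

lemma law_Hm (ξ : PMF ℕ) (p : I) (s : ℕ) {y : ℝ} (hy0 : 0 ≤ y) (hy1 : y ≤ 1)
    (hy : 1 - y ≤ (1 - (p : ℝ)) * ∑' k, (ξ k).toReal * B k s y)
    (hw1 : HasSum (fun k => (ξ k).toReal) 1) (m : ℕ) :
    1 - y ≤ (law ξ p).real (Hm s m) := by
  have hp1 : (0 : ℝ) ≤ 1 - p := by linarith [p.2.2]
  induction m with
  | zero =>
    have : (law ξ p).real (Hm s 0) = 1 := probReal_univ
    rw [this]; linarith
  | succ m ih =>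
    have hsum : Summable (fun k => (ξ k).toReal * B k s y) := by
      refine Summable.of_nonneg_of_le
        (fun k => mul_nonneg ENNReal.toReal_nonneg (B_nonneg k _ hy0 hy1)) (fun k => ?_)
        hw1.summable
      exact mul_le_of_le_one_right ENNReal.toReal_nonneg (B_le_one k _ hy0 hy1)
    refine le_trans hy ?_
    have h1 := (hsum.hasSum.tendsto_sum_nat.const_mul (1 - (p : ℝ)))
    apply le_of_tendsto' h1
    intro K
    refine le_trans ?_ (law_Phi ξ p (meas_Hm s m) s K)
    rw [Finset.mul_sum]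
    apply Finset.sum_le_sum
    intro k _
    apply mul_le_mul_of_nonneg_left _ hp1
    apply mul_le_mul_of_nonneg_left _ ENNReal.toReal_nonneg
    have hx1 : (law ξ p).real (Hm s m) ≤ 1 := measureReal_le_one
    have hx0 : 0 ≤ (law ξ p).real (Hm s m) := measureReal_nonneg
    apply B_antitone k s
    · constructor <;> linarith
    · exact ⟨hy0, hy1⟩
    · linarith

lemma law_Hinf (ξ : PMF ℕ) (p : I) (s : ℕ) {y : ℝ} (hy0 : 0 ≤ y) (hy1 : y ≤ 1)
    (hy : 1 - y ≤ (1 - (p : ℝ)) * ∑' k, (ξ k).toReal * B k s y)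
    (hw1 : HasSum (fun k => (ξ k).toReal) 1) :
    1 - y ≤ (law ξ p).real (Hinf s) := by
  have h1 : Filter.Tendsto (fun m => (law ξ p).real (Hm s m)) Filter.atTop
      (nhds ((law ξ p).real (Hinf s))) := by
    have h2 := tendsto_measure_iInter_atTop (μ := law ξ p)
      (fun m => (meas_Hm s m).nullMeasurableSet) (Hm_anti s) ⟨0, measure_ne_top _ _⟩
    exact (ENNReal.tendsto_toReal (measure_ne_top _ _)).comp h2
  exact ge_of_tendsto' h1 (law_Hm ξ p s hy0 hy1 hy hw1)

lemma law_Phi_pos (ξ : PMF ℕ) (p : I) (hp : (p : ℝ) < 1) (s : ℕ)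
    {E : Set (List ℕ → ℕ × Bool)} (hE : MeasurableSet E) (k : ℕ) (hk : ξ k ≠ 0)
    (h : 0 < (law ξ p).real E ∨ k ≤ s) : 0 < (law ξ p).real (Phi s E) := by
  have hk' : 0 < (ξ k).toReal := ENNReal.toReal_pos hk (PMF.apply_ne_top ξ k)
  have hp1 : (0 : ℝ) < 1 - p := by linarith
  rcases h with h | h
  · have h1 := law_cell ξ p hE k ∅ (Finset.empty_subset _)
    refine lt_of_lt_of_le ?_ (measureReal_mono (cell_subset_Phi s E k ∅ (Finset.empty_subset _)
      (by simp)) (measure_ne_top _ _))
    rw [h1]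
    simp only [Finset.card_empty, pow_zero, one_mul, Nat.sub_zero]
    positivity
  · have h1 := law_cell ξ p (MeasurableSet.univ) k ∅ (Finset.empty_subset _)
    have h2 : cell Set.univ k ∅ ⊆ Phi s E := by
      rintro z ⟨h3, _⟩
      rw [Set.mem_singleton_iff] at h3
      refine ⟨by rw [h3], Finset.range k, by rw [h3], by rw [Finset.card_range]; exact h, ?_⟩
      intro i hi hi'
      rw [h3] at hi
      exact absurd hi hi'
    refine lt_of_lt_of_le ?_ (measureReal_mono h2 (measure_ne_top _ _))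
    rw [h1, probReal_univ]
    simp only [Finset.card_empty, pow_zero, Nat.sub_zero, one_pow, mul_one]
    positivity

/-! ## The tree -/

/-- `v = (i₁, …, iₘ)` is a vertex of the tree with offspring numbers `n` iff
`i₁ < n ∅`, `i₂ < n (i₁)`, and so on. -/
def InTree : (List ℕ → ℕ) → List ℕ → Prop
  | _, [] => True
  | n, i :: v => i < n [] ∧ InTree (fun w => n (i :: w)) v

/-- The offspring numbers. -/
def off (z : List ℕ → ℕ × Bool) : List ℕ → ℕ := fun w => (z w).1

/-- The labels seen from the vertex `v`. -/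
def shift {X : Type} (z : List ℕ → X) (v : List ℕ) : List ℕ → X := fun w => z (v ++ w)

lemma measurable_shift {X : Type} [MeasurableSpace X] (v : List ℕ) :
    Measurable (fun z : List ℕ → X => shift z v) := by
  rw [measurable_pi_iff]
  intro w
  exact measurable_pi_apply (v ++ w)

lemma meas_InTree (v : List ℕ) :
    MeasurableSet {z : List ℕ → ℕ × Bool | InTree (off z) v} := by
  induction v with
  | nil => exact MeasurableSet.univ
  | cons i v ih =>
    have h1 : {z : List ℕ → ℕ × Bool | InTree (off z) (i :: v)} =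
        {z | i < (z []).1} ∩ (fun z : List ℕ → ℕ × Bool => sub z i) ⁻¹'
          {z : List ℕ → ℕ × Bool | InTree (off z) v} := rfl
    rw [h1]
    apply MeasurableSet.inter _ (measurable_sub i ih)
    have h2 : Measurable (fun z : List ℕ → ℕ × Bool => (z []).1) :=
      measurable_fst.comp (measurable_pi_apply [])
    exact h2 (measurableSet_Ioi (a := i))

/-- No vertex of the tree sees `A`. -/
def Nn (A : Set (List ℕ → ℕ × Bool)) : Set (List ℕ → ℕ × Bool) :=
  {z | ∀ v, InTree (off z) v → shift z v ∉ A}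

lemma meas_Nn {A : Set (List ℕ → ℕ × Bool)} (hA : MeasurableSet A) : MeasurableSet (Nn A) := by
  have h1 : Nn A = ⋂ v : List ℕ, ({z : List ℕ → ℕ × Bool | InTree (off z) v}ᶜ ∪
      ((fun z : List ℕ → ℕ × Bool => shift z v) ⁻¹' A)ᶜ) := by
    ext z
    rw [Set.mem_iInter]
    constructor
    · intro h v
      by_cases hv : InTree (off z) v
      · exact Or.inr (h v hv)
      · exact Or.inl hv
    · intro h v hv
      rcases h v with h | h
      · exact absurd hv h
      · exact h
  rw [h1]
  exact MeasurableSet.iInter fun v => (meas_InTree v).compl.union (measurable_shift v hA).compl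

lemma Nn_sub {A : Set (List ℕ → ℕ × Bool)} {z : List ℕ → ℕ × Bool} (hz : z ∈ Nn A) (i : ℕ)
    (hi : i < (z []).1) : sub z i ∈ Nn A := by
  intro v hv
  exact hz (i :: v) ⟨hi, hv⟩

lemma law_Nn (ξ : PMF ℕ) (p : I) (h0 : ξ 0 = 0) (hw1 : HasSum (fun k => (ξ k).toReal) 1)
    (k : ℕ) (hk : 2 ≤ k) (hk' : ξ k ≠ 0)
    {A : Set (List ℕ → ℕ × Bool)} (hA : MeasurableSet A) (hpos : 0 < (law ξ p).real A) :
    (law ξ p) (Nn A) = 0 := by
  set u := (law ξ p).real (Nn A) with hu
  have hmN := meas_Nn hA
  have hfst : ∀ T : Set ℕ, (lab ξ p).real {q | q.1 ∈ T} = ξ.toMeasure.real T := by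
    intro T
    have h1 : {q : ℕ × Bool | q.1 ∈ T} = T ×ˢ Set.univ := by
      ext q; simp
    rw [Measure.real, lab, h1, Measure.prod_prod, measure_univ, mul_one]
    rfl
  set w1 := (ξ 1).toReal with hw
  have hw1' : ξ.toMeasure.real {1} = w1 := by
    rw [Measure.real, PMF.toMeasure_apply_singleton _ _ (MeasurableSet.singleton 1)]
  have hw0' : ξ.toMeasure.real {0} = 0 := by
    rw [Measure.real, PMF.toMeasure_apply_singleton _ _ (MeasurableSet.singleton 0), h0]
    simp
  have hw2' : ξ.toMeasure.real (Set.Ici 2) ≤ 1 - w1 := by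
    have h1 : ξ.toMeasure.real (Set.Ici 2) ≤ ξ.toMeasure.real ({1}ᶜ : Set ℕ) := by
      apply measureReal_mono _ (measure_ne_top _ _)
      intro j hj
      rw [Set.mem_Ici] at hj
      rw [Set.mem_compl_iff, Set.mem_singleton_iff]
      omega
    rwa [probReal_compl_eq_one_sub (MeasurableSet.singleton 1), hw1'] at h1
  have hw1lt : w1 < 1 := by
    have h1 : w1 + (ξ k).toReal ≤ 1 := by
      have h2 := sum_le_hasSum ({1, k} : Finset ℕ) (fun i _ => ENNReal.toReal_nonneg) hw1
      rw [Finset.sum_pair (by omega)] at h2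
      exact h2
    have h3 : 0 < (ξ k).toReal := ENNReal.toReal_pos hk' (PMF.apply_ne_top ξ k)
    linarith
  have hu0 : 0 ≤ u := measureReal_nonneg
  have hult : u < 1 := by
    have h1 : Nn A ⊆ Aᶜ := by
      intro z hz
      exact hz [] trivial
    have h2 : u ≤ (law ξ p).real Aᶜ := measureReal_mono h1 (measure_ne_top _ _)
    rw [probReal_compl_eq_one_sub hA] at h2
    linarith
  have hE : ∀ i : ℕ, MeasurableSet ((fun _ : ℕ => Nn A) i) := fun _ => hmN
  have k0 := key_real ξ p (R := {q : ℕ × Bool | q.1 ∈ ({0} : Set ℕ)})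
    (measurable_fst (MeasurableSet.singleton 0)) ∅ hE
  have k1 := key_real ξ p (R := {q : ℕ × Bool | q.1 ∈ ({1} : Set ℕ)})
    (measurable_fst (MeasurableSet.singleton 1)) {0} hE
  have k2 := key_real ξ p (R := {q : ℕ × Bool | q.1 ∈ (Set.Ici 2 : Set ℕ)})
    (measurable_fst measurableSet_Ici) {0, 1} hE
  rw [hfst, hw0', zero_mul] at k0
  rw [hfst, hw1', Finset.prod_singleton] at k1
  rw [hfst, Finset.prod_pair (by norm_num)] at k2
  have hcov : Nn A ⊆ ({z | z [] ∈ {q : ℕ × Bool | q.1 ∈ ({0} : Set ℕ)} ∧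
        ∀ i ∈ (∅ : Finset ℕ), sub z i ∈ (fun _ : ℕ => Nn A) i} ∪
      {z | z [] ∈ {q : ℕ × Bool | q.1 ∈ ({1} : Set ℕ)} ∧
        ∀ i ∈ ({0} : Finset ℕ), sub z i ∈ (fun _ : ℕ => Nn A) i}) ∪
      {z | z [] ∈ {q : ℕ × Bool | q.1 ∈ (Set.Ici 2 : Set ℕ)} ∧
        ∀ i ∈ ({0, 1} : Finset ℕ), sub z i ∈ (fun _ : ℕ => Nn A) i} := by
    intro z hz
    rcases Nat.lt_or_ge (z []).1 1 with h | h
    · left; left
      refine ⟨?_, ?_⟩
      · show (z []).1 ∈ ({0} : Set ℕ)
        rw [Set.mem_singleton_iff]; omega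
      · intro i hi; simp at hi
    · rcases Nat.lt_or_ge (z []).1 2 with h' | h'
      · left; right
        refine ⟨?_, ?_⟩
        · show (z []).1 ∈ ({1} : Set ℕ)
          rw [Set.mem_singleton_iff]; omega
        · intro i hi
          rw [Finset.mem_singleton] at hi
          exact Nn_sub hz i (by omega)
      · right
        refine ⟨h', ?_⟩
        intro i hi
        rw [Finset.mem_insert, Finset.mem_singleton] at hi
        exact Nn_sub hz i (by omega)
  have h1 : u ≤ w1 * u + (1 - w1) * (u * u) := by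
    have h2 := measureReal_mono hcov (measure_ne_top (law ξ p) _)
    have h3 := measureReal_union_le (μ := law ξ p)
      ({z | z [] ∈ {q : ℕ × Bool | q.1 ∈ ({0} : Set ℕ)} ∧
        ∀ i ∈ (∅ : Finset ℕ), sub z i ∈ (fun _ : ℕ => Nn A) i} ∪
      {z | z [] ∈ {q : ℕ × Bool | q.1 ∈ ({1} : Set ℕ)} ∧
        ∀ i ∈ ({0} : Finset ℕ), sub z i ∈ (fun _ : ℕ => Nn A) i})
      {z | z [] ∈ {q : ℕ × Bool | q.1 ∈ (Set.Ici 2 : Set ℕ)} ∧
        ∀ i ∈ ({0, 1} : Finset ℕ), sub z i ∈ (fun _ : ℕ => Nn A) i}
    have h4 := measureReal_union_le (μ := law ξ p)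
      {z | z [] ∈ {q : ℕ × Bool | q.1 ∈ ({0} : Set ℕ)} ∧
        ∀ i ∈ (∅ : Finset ℕ), sub z i ∈ (fun _ : ℕ => Nn A) i}
      {z | z [] ∈ {q : ℕ × Bool | q.1 ∈ ({1} : Set ℕ)} ∧
        ∀ i ∈ ({0} : Finset ℕ), sub z i ∈ (fun _ : ℕ => Nn A) i}
    rw [k0, k1] at h4
    rw [k2] at h3
    have h5 : ξ.toMeasure.real (Set.Ici 2) * (u * u) ≤ (1 - w1) * (u * u) :=
      mul_le_mul_of_nonneg_right hw2' (by positivity)
    linarith
  have h6 : u = 0 := by
    by_contra hne
    have hupos : 0 < u := lt_of_le_of_ne hu0 (Ne.symm hne)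
    have : 0 < (1 - w1) * (u * (1 - u)) := by
      apply mul_pos (by linarith) (mul_pos hupos (by linarith))
    nlinarith
  rw [hu, measureReal_eq_zero_iff (measure_ne_top _ _)] at h6
  exact h6


/-! ## Bootstrap percolation on graphs -/

/-- One step of `r`-neighbour bootstrap percolation: a healthy vertex with at least `r` infected
neighbours becomes infected, infected vertices stay infected. -/
def step {V : Type} (G : SimpleGraph V) (r : ℕ) (A : Set V) : Set V :=
  A ∪ {v | (r : ℕ∞) ≤ (G.neighborSet v ∩ A).encard}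

/-- The set of vertices infected after `t` steps, started from the initially infected set `A`. -/
def infected {V : Type} (G : SimpleGraph V) (r : ℕ) (A : Set V) (t : ℕ) : Set V :=
  (step G r)^[t] A

/-- Every vertex is eventually infected. -/
def Percolates {V : Type} (G : SimpleGraph V) (r : ℕ) (A : Set V) : Prop :=
  ∀ v, ∃ t, v ∈ infected G r A t

/-- The probability that `G` percolates if every vertex is initially infected independently
with probability `p`. -/
noncomputable def perc {V : Type} (G : SimpleGraph V) (r : ℕ) (p : I) : ℝ≥0∞ :=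
  (Measure.infinitePi fun _ : V => bern p) {ω | Percolates G r {v | ω v = true}}

/-- The critical probability of `r`-neighbour bootstrap percolation on `G`. -/
noncomputable def pc {V : Type} (G : SimpleGraph V) (r : ℕ) : ℝ :=
  sInf {x : ℝ | ∃ p : I, (p : ℝ) = x ∧ 0 < perc G r p}

/-- The tree with offspring numbers `n`; a vertex is adjacent to its parent and its children. -/
def treeGraph (n : List ℕ → ℕ) : SimpleGraph {v : List ℕ // InTree n v} where
  Adj u v := (∃ i, v.1 = u.1 ++ [i]) ∨ (∃ i, u.1 = v.1 ++ [i])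
  symm := ⟨fun _ _ h => h.symm⟩
  loopless := ⟨fun u h => by
    rcases h with ⟨i, h⟩ | ⟨i, h⟩ <;>
    · have := congrArg List.length h
      simp at this⟩

/-- The law of the offspring numbers of a Galton–Watson tree with offspring distribution `ξ`. -/
noncomputable def gw (ξ : PMF ℕ) : Measure (List ℕ → ℕ) :=
  Measure.infinitePi fun _ : List ℕ => ξ.toMeasure

lemma infected_succ {V : Type} (G : SimpleGraph V) (r : ℕ) (A : Set V) (t : ℕ) :
    infected G r A (t + 1) = step G r (infected G r A t) :=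
  Function.iterate_succ_apply' _ _ _

lemma step_mono {V : Type} (G : SimpleGraph V) (r : ℕ) {A A' : Set V} (h : A ⊆ A') :
    step G r A ⊆ step G r A' := by
  apply Set.union_subset_union h
  intro v hv
  exact le_trans hv (Set.encard_le_encard (Set.inter_subset_inter_right _ h))

lemma infected_mono {V : Type} (G : SimpleGraph V) (r : ℕ) {A A' : Set V} (h : A ⊆ A') (t : ℕ) :
    infected G r A t ⊆ infected G r A' t := by
  induction t with
  | zero => exact h
  | succ t ih =>
    rw [infected_succ, infected_succ]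
    exact step_mono G r ih

lemma Percolates.mono {V : Type} {G : SimpleGraph V} {r : ℕ} {A A' : Set V} (h : A ⊆ A')
    (hA : Percolates G r A) : Percolates G r A' := by
  intro v
  obtain ⟨t, ht⟩ := hA v
  exact ⟨t, infected_mono G r h t ht⟩

/-- A fort is never infected. -/
lemma fort {V : Type} (G : SimpleGraph V) (r : ℕ) (A F : Set V) (hFA : ∀ w ∈ F, w ∉ A)
    (hF : ∀ w ∈ F, (G.neighborSet w \ F).encard < (r : ℕ∞)) (t : ℕ) :
    ∀ w ∈ F, w ∉ infected G r A t := by
  induction t with
  | zero => exact hFA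
  | succ t ih =>
    intro w hw hcon
    rw [infected_succ] at hcon
    rcases hcon with h | h
    · exact ih w hw h
    · have h1 : (G.neighborSet w ∩ infected G r A t).encard ≤ (G.neighborSet w \ F).encard := by
        apply Set.encard_le_encard
        rintro x ⟨hx1, hx2⟩
        exact ⟨hx1, fun hxF => ih x hxF hx2⟩
      exact absurd (lt_of_le_of_lt (le_trans h h1) (hF w hw)) (lt_irrefl _)

lemma InTree_snoc (v : List ℕ) : ∀ (n : List ℕ → ℕ) (i : ℕ),
    InTree n (v ++ [i]) ↔ InTree n v ∧ i < n v := by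
  induction v with
  | nil =>
    intro n i
    constructor
    · intro h; exact ⟨trivial, h.1⟩
    · intro h; exact ⟨h.2, trivial⟩
  | cons j v ih =>
    intro n i
    have h1 : InTree n (j :: v ++ [i]) ↔ j < n [] ∧ InTree (fun w => n (j :: w)) (v ++ [i]) :=
      Iff.rfl
    have h2 : InTree n (j :: v) ↔ j < n [] ∧ InTree (fun w => n (j :: w)) v := Iff.rfl
    rw [h1, h2, ih, and_assoc]

/-- Descendants `v₀ ++ u` of `v₀` such that all vertices after `v₀` on the way see `H`. -/
inductive Good (H : Set (List ℕ → ℕ × Bool)) (z : List ℕ → ℕ × Bool) (v₀ : List ℕ) :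
    List ℕ → Prop
  | nil : Good H z v₀ v₀
  | snoc (u : List ℕ) (i : ℕ) : Good H z v₀ u → shift z (u ++ [i]) ∈ H → Good H z v₀ (u ++ [i])

lemma shift_nil_apply {X : Type} (z : List ℕ → X) (v : List ℕ) : shift z v [] = z v := by
  simp [shift]

lemma sub_shift {X : Type} (z : List ℕ → X) (v : List ℕ) (i : ℕ) :
    sub (shift z v) i = shift z (v ++ [i]) := by
  funext w
  simp [sub, shift]

lemma not_percolates (r : ℕ) (hr : 2 ≤ r) (z : List ℕ → ℕ × Bool) (v₀ : List ℕ)
    (hv : InTree (off z) v₀) (hz : shift z v₀ ∈ Phi (r - 2) (Hinf (r - 1))) :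
    ¬ Percolates (treeGraph (off z)) r {w | (z w.1).2 = true} := by
  classical
  intro hperc
  set H := Hinf (r - 1) with hH
  set F : Set {v : List ℕ // InTree (off z) v} := {w | Good H z v₀ w.1} with hF
  obtain ⟨t, ht⟩ := hperc ⟨v₀, hv⟩
  refine fort (treeGraph (off z)) r _ F ?_ ?_ t ⟨v₀, hv⟩ Good.nil ht
  · rintro ⟨w, hw⟩ hwF hcon
    have hwF' : Good H z v₀ w := hwF
    have hcon' : (z w).2 = true := hcon
    have h1 : (z w).2 = false := by
      cases hwF' with
      | nil =>
        have := hz.1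
        rwa [shift_nil_apply] at this
      | snoc u i h1 h2 =>
        have := (Hinf_sub _ h2).1
        rwa [shift_nil_apply] at this
    rw [h1] at hcon'
    exact Bool.noConfusion hcon'
  · rintro ⟨w, hw⟩ hwF
    have hwF' : Good H z v₀ w := hwF
    have key2 : ∃ T : Finset (List ℕ), (T.card : ℕ∞) < (r : ℕ∞) ∧
        Subtype.val '' ((treeGraph (off z)).neighborSet ⟨w, hw⟩ \ F) ⊆ (T : Set (List ℕ)) := by
      have hchild : ∀ (s : ℕ), shift z w ∈ Phi s H → ∃ S : Finset ℕ, S.card ≤ s ∧
          ∀ i, InTree (off z) (w ++ [i]) → i ∉ S → Good H z v₀ (w ++ [i]) := by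
        rintro s ⟨_, S, _, hc, h2⟩
        refine ⟨S, hc, ?_⟩
        intro i hi hiS
        have hi' := ((InTree_snoc w (off z) i).1 hi).2
        have h3 := h2 i (by rw [Finset.mem_range, shift_nil_apply]; exact hi') hiS
        rw [sub_shift] at h3
        exact Good.snoc w i hwF' h3
      cases hwF' with
      | nil =>
        obtain ⟨S, hc, hS⟩ := hchild _ hz
        refine ⟨insert v₀.dropLast (S.image (fun i => v₀ ++ [i])), ?_, ?_⟩
        · have h1 := Finset.card_insert_le v₀.dropLast (S.image (fun i => v₀ ++ [i]))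
          have h2 := Finset.card_image_le (s := S) (f := fun i => v₀ ++ [i])
          exact_mod_cast (show _ < r by omega)
        · rintro _ ⟨⟨x, hx⟩, ⟨hadj, hxF⟩, rfl⟩
          rw [Finset.mem_coe, Finset.mem_insert, Finset.mem_image]
          rcases hadj with ⟨i, h⟩ | ⟨i, h⟩
          · right
            have h' : x = v₀ ++ [i] := h
            refine ⟨i, ?_, h'.symm⟩
            by_contra hiS
            apply hxF
            have := hS i (h' ▸ hx) hiS
            show Good H z v₀ x
            rw [h']; exact this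
          · left
            have h' : v₀ = x ++ [i] := h
            show x = v₀.dropLast
            rw [h']; simp
      | snoc u j h1 h2 =>
        obtain ⟨S, hc, hS⟩ := hchild _ (Hinf_sub _ h2)
        refine ⟨S.image (fun i => (u ++ [j]) ++ [i]), ?_, ?_⟩
        · have h2 := Finset.card_image_le (s := S) (f := fun i => (u ++ [j]) ++ [i])
          exact_mod_cast (show _ < r by omega)
        · rintro _ ⟨⟨x, hx⟩, ⟨hadj, hxF⟩, rfl⟩
          rw [Finset.mem_coe, Finset.mem_image]
          rcases hadj with ⟨i, h⟩ | ⟨i, h⟩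
          · have h' : x = (u ++ [j]) ++ [i] := h
            refine ⟨i, ?_, h'.symm⟩
            by_contra hiS
            apply hxF
            have := hS i (h' ▸ hx) hiS
            show Good H z v₀ x
            rw [h']; exact this
          · exfalso
            have h' : u ++ [j] = x ++ [i] := h
            have h'' : u = x := (List.append_inj' h' rfl).1
            apply hxF
            show Good H z v₀ x
            rw [← h'']; exact h1
    obtain ⟨T, hT1, hT2⟩ := key2
    have h3 := Set.encard_le_encard hT2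
    rw [Subtype.val_injective.encard_image, Set.encard_coe_eq_coe_finsetCard] at h3
    exact lt_of_le_of_lt h3 hT1

/-! ## Measurability and monotonicity in `p` -/

lemma meas_infected {V : Type} [Countable V] (G : SimpleGraph V) (r : ℕ) (t : ℕ) (v : V) :
    MeasurableSet {ω : V → Bool | v ∈ infected G r {v | ω v = true} t} := by
  classical
  induction t generalizing v with
  | zero =>
    have h1 : {ω : V → Bool | v ∈ infected G r {v | ω v = true} 0} =
        (fun ω : V → Bool => ω v) ⁻¹' {true} := rfl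
    rw [h1]
    exact (measurable_pi_apply v) (MeasurableSet.singleton true)
  | succ t ih =>
    have h1 : {ω : V → Bool | v ∈ infected G r {v | ω v = true} (t + 1)} =
        {ω : V → Bool | v ∈ infected G r {v | ω v = true} t} ∪
        ⋃ S ∈ {S : Finset V | S.card = r ∧ (S : Set V) ⊆ G.neighborSet v},
          ⋂ u ∈ S, {ω : V → Bool | u ∈ infected G r {v | ω v = true} t} := by
      ext ω
      rw [Set.mem_ofPred_eq, infected_succ]
      constructor
      · rintro (h | h)
        · exact Or.inl h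
        · right
          have h' : (r : ℕ∞) ≤ (G.neighborSet v ∩ infected G r {v | ω v = true} t).encard := h
          obtain ⟨S, hS, hc⟩ := Set.exists_subset_encard_eq h'
          have hfin : S.Finite := Set.finite_of_encard_eq_coe hc
          rw [Set.mem_iUnion₂]
          refine ⟨hfin.toFinset, ⟨?_, ?_⟩, ?_⟩
          · rw [hfin.encard_eq_coe_toFinset_card] at hc
            exact_mod_cast hc
          · intro x hx
            rw [Set.Finite.coe_toFinset] at hx
            exact (hS hx).1
          · rw [Set.mem_iInter₂]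
            intro u hu
            rw [Set.Finite.mem_toFinset] at hu
            exact (hS hu).2
      · rintro (h | h)
        · exact Or.inl h
        · right
          rw [Set.mem_iUnion₂] at h
          obtain ⟨S, ⟨hc, hN⟩, h⟩ := h
          rw [Set.mem_iInter₂] at h
          show (r : ℕ∞) ≤ (G.neighborSet v ∩ infected G r {v | ω v = true} t).encard
          have hc' : (r : ℕ∞) = (S : Set V).encard := by
            rw [Set.encard_coe_eq_coe_finsetCard, hc]
          refine le_trans (le_of_eq hc') ?_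
          apply Set.encard_le_encard
          intro x hx
          exact ⟨hN hx, h x hx⟩
    rw [h1]
    apply (ih v).union
    apply MeasurableSet.biUnion (Set.to_countable _)
    intro S _
    exact Finset.measurableSet_biInter S fun u _ => ih u

lemma meas_perc {V : Type} [Countable V] (G : SimpleGraph V) (r : ℕ) :
    MeasurableSet {ω : V → Bool | Percolates G r {v | ω v = true}} := by
  have h1 : {ω : V → Bool | Percolates G r {v | ω v = true}} =
      ⋂ v, ⋃ t, {ω : V → Bool | v ∈ infected G r {v | ω v = true} t} := by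
    ext ω
    rw [Set.mem_iInter]
    constructor
    · intro h v
      rw [Set.mem_iUnion]
      exact h v
    · intro h v
      have := h v
      rw [Set.mem_iUnion] at this
      exact this
  rw [h1]
  exact MeasurableSet.iInter fun v => MeasurableSet.iUnion fun t => meas_infected G r t v

lemma meas_dec (p : I) : Measurable (fun u : I => decide (u < p)) := by
  apply measurable_to_bool
  have h2 : (fun u : I => decide (u < p)) ⁻¹' {true} = Set.Iio p := by
    ext u; simp
  rw [h2]
  exact measurableSet_Iio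

lemma bern_map (p : I) : (volume : Measure I).map (fun u => decide (u < p)) = bern p := by
  have hm : Measurable (fun u : I => decide (u < p)) := meas_dec p
  have h1 : ∀ b : Bool, (volume : Measure I).map (fun u => decide (u < p)) {b} = bern p {b} := by
    intro b
    rw [Measure.map_apply hm (MeasurableSet.singleton b)]
    cases b with
    | true =>
      have h2 : (fun u : I => decide (u < p)) ⁻¹' {true} = Set.Iio p := by
        ext u; simp
      rw [h2, unitInterval.volume_Iio]
      simp [bern]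
    | false =>
      have h2 : (fun u : I => decide (u < p)) ⁻¹' {false} = Set.Ici p := by
        ext u; simp
      rw [h2, unitInterval.volume_Ici]
      simp [bern]
  exact Measure.ext_of_singleton h1

lemma perc_eq {V : Type} [Countable V] (G : SimpleGraph V) (r : ℕ) (p : I) :
    perc G r p = (Measure.infinitePi fun _ : V => (volume : Measure I))
      {U | Percolates G r {v | U v < p}} := by
  have hm : Measurable (fun u : I => decide (u < p)) := meas_dec p
  have h1 := Measure.infinitePi_map_pi (fun _ : V => (volume : Measure I))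
    (f := fun _ u => decide (u < p)) (fun _ => hm)
  have h2 : (Measure.infinitePi fun _ : V => bern p) =
      (Measure.infinitePi fun _ : V => (volume : Measure I)).map
        (fun x i => decide (x i < p)) := by
    rw [h1]
    congr 1
    funext _
    exact (bern_map p).symm
  have hm2 : Measurable (fun (x : V → I) i => decide (x i < p)) := by
    rw [measurable_pi_iff]
    intro i
    exact hm.comp (measurable_pi_apply i)
  rw [perc, h2, Measure.map_apply hm2 (meas_perc G r)]
  congr 1
  ext U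
  simp

lemma perc_mono {V : Type} [Countable V] (G : SimpleGraph V) (r : ℕ) {p q : I} (h : p ≤ q) :
    perc G r p ≤ perc G r q := by
  rw [perc_eq, perc_eq]
  apply measure_mono
  intro U hU
  apply Percolates.mono _ hU
  intro v hv
  exact lt_of_lt_of_le hv h

lemma perc_one {V : Type} [Countable V] (G : SimpleGraph V) (r : ℕ) : 0 < perc G r 1 := by
  have h1 : (Measure.infinitePi fun _ : V => bern 1) {fun _ => true} = 1 := by
    rw [Measure.infinitePi_singleton]
    have : bern 1 {true} = 1 := by simp [bern]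
    simp [this]
  refine lt_of_lt_of_le one_pos ?_
  rw [← h1, perc]
  apply measure_mono
  intro ω hω
  rw [Set.mem_singleton_iff] at hω
  intro v
  refine ⟨0, ?_⟩
  show ω v = true
  rw [hω]

/-! ## The main theorem -/

lemma law_perc (r : ℕ) (hr : 2 ≤ r) (b : ℝ) (hb : (r : ℝ) ≤ b) (ξ : PMF ℕ) (h0 : ξ 0 = 0)
    (hmean : HasSum (fun k : ℕ => (k : ℝ) * (ξ k).toReal) b) (p : I)
    (hp : (p : ℝ) < Real.exp (-(b / ((r : ℝ) - 1)))) :
    (law ξ p) {z | Percolates (treeGraph (off z)) r {w | (z w.1).2 = true}} = 0 := by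
  have hw1 : HasSum (fun k => (ξ k).toReal) 1 := by
    have h1 : HasSum (fun k => ξ k) 1 := ξ.hasSum_coe_one
    have h2 := (ENNReal.hasSum_toReal (f := fun k => ξ k) (by rw [h1.tsum_eq]; simp))
    rw [← ENNReal.tsum_toReal_eq (fun k => PMF.apply_ne_top ξ k), h1.tsum_eq] at h2
    simpa using h2
  have hb2 : (2 : ℝ) ≤ b := le_trans (by exact_mod_cast hr) hb
  have hplt : (p : ℝ) < 1 := by
    refine lt_of_lt_of_le hp ?_
    rw [Real.exp_le_one_iff]
    have : (0 : ℝ) < (r : ℝ) - 1 := by
      have : (2 : ℝ) ≤ r := by exact_mod_cast hr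
      linarith
    have : 0 ≤ b / ((r : ℝ) - 1) := by positivity
    linarith
  obtain ⟨k, hk, hk'⟩ : ∃ k, 2 ≤ k ∧ ξ k ≠ 0 := by
    by_contra hcon
    push Not at hcon
    have h1 : HasSum (fun k : ℕ => (k : ℝ) * (ξ k).toReal) (((1 : ℕ) : ℝ) * (ξ 1).toReal) := by
      apply hasSum_single 1
      intro j hj
      rcases Nat.lt_or_ge j 2 with h | h
      · have : j = 0 := by omega
        rw [this]; simp
      · rw [hcon j h]; simp
    have h2 := hmean.unique h1
    have h3 : (ξ 1).toReal ≤ 1 := by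
      have := sum_le_hasSum ({1} : Finset ℕ) (fun i _ => ENNReal.toReal_nonneg) hw1
      rwa [Finset.sum_singleton] at this
    rw [h2] at hb2
    push_cast at hb2
    linarith
  have hposA : 0 < (law ξ p).real (Phi (r - 2) (Hinf (r - 1))) := by
    by_cases hsupp : ∀ j < r - 1, ξ j = 0
    · obtain ⟨S, hS⟩ : ∃ S, r = S + 2 := ⟨r - 2, by omega⟩
      have hS1 : r - 1 = S + 1 := by omega
      have hS2 : (r : ℝ) - 1 = ((S + 1 : ℕ) : ℝ) := by rw [hS]; push_cast; ring
      rw [hS2] at hp
      obtain ⟨y, hy0, hy1, hy⟩ := exists_level (fun k => (ξ k).toReal)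
        (fun k => ENNReal.toReal_nonneg) hw1 b hmean S
        (fun j hj => by rw [hsupp j (by omega)]; simp) (by linarith) p p.2.1 hp
      have h1 := law_Hinf ξ p (S + 1) hy0 hy1.le hy hw1
      rw [hS1]
      exact law_Phi_pos ξ p hplt _ (meas_Hinf _) k hk' (Or.inl (by linarith))
    · push Not at hsupp
      obtain ⟨j, hj, hj'⟩ := hsupp
      exact law_Phi_pos ξ p hplt _ (meas_Hinf _) j hj' (Or.inr (by omega))
  have h1 := law_Nn ξ p h0 hw1 k hk hk' (meas_Phi (r - 2) (meas_Hinf (r - 1))) hposA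
  refine measure_mono_null ?_ h1
  intro z hz v hv hcon
  exact not_percolates r hr z v hv hcon hz

lemma ae_perc (r : ℕ) (hr : 2 ≤ r) (b : ℝ) (hb : (r : ℝ) ≤ b) (ξ : PMF ℕ) (h0 : ξ 0 = 0)
    (hmean : HasSum (fun k : ℕ => (k : ℝ) * (ξ k).toReal) b) (p : I)
    (hp : (p : ℝ) < Real.exp (-(b / ((r : ℝ) - 1)))) :
    ∀ᵐ n ∂ gw ξ, perc (treeGraph n) r p = 0 := by
  have h1 := law_perc r hr b hb ξ h0 hmean p hp
  rw [law, lab, ← prod_infinitePi] at h1
  have h2 := Measure.preimage_null_of_map_null (by fun_prop) h1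
  have h3 := Measure.measure_ae_null_of_prod_null h2
  filter_upwards [h3] with n hn
  have h4 : (Measure.infinitePi fun _ : List ℕ => bern p)
      {ω | Percolates (treeGraph n) r {w | ω w.1 = true}} = 0 := hn
  have h6 : (Measure.infinitePi fun _ : {v : List ℕ // InTree n v} => bern p) =
      (Measure.infinitePi fun _ : List ℕ => bern p).map
        (fun (ω : List ℕ → Bool) (v : {v : List ℕ // InTree n v}) => ω v.1) :=
    (Measure.infinitePi_map_restrict' (fun _ : List ℕ => bern p)).symm
  have h7 : Measurable (fun (ω : List ℕ → Bool) (v : {v : List ℕ // InTree n v}) => ω v.1) := by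
    rw [measurable_pi_iff]
    intro v
    exact measurable_pi_apply v.1
  have h8 := Measure.map_apply (μ := Measure.infinitePi fun _ : List ℕ => bern p) h7
    (meas_perc (treeGraph n) r)
  rw [← h6] at h8
  exact h8.trans h4

/-- For every `r ≥ 2`, every `b ≥ r` and every offspring distribution `ξ` with mean `b` and
`ξ 0 = 0`, the critical probability of `r`-neighbour bootstrap percolation on the Galton–Watson
tree is almost surely at least `exp (- b / (r - 1))`. -/
theorem result (r : ℕ) (hr : 2 ≤ r) (b : ℝ) (hb : (r : ℝ) ≤ b) (ξ : PMF ℕ) (h0 : ξ 0 = 0)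
    (hmean : HasSum (fun k : ℕ => (k : ℝ) * (ξ k).toReal) b) :
    ∀ᵐ n ∂ gw ξ, Real.exp (-(b / ((r : ℝ) - 1))) ≤ pc (treeGraph n) r := by
  have hcount : Set.Countable {p : I | ∃ q : ℚ, (q : ℝ) = p} := by
    have h1 : {p : I | ∃ q : ℚ, (q : ℝ) = p} ⊆
        (fun p : I => (p : ℝ)) ⁻¹' (Set.range (fun q : ℚ => (q : ℝ))) := by
      rintro p ⟨q, hq⟩
      exact ⟨q, hq⟩
    exact ((Set.countable_range _).preimage_of_injOn Subtype.val_injective.injOn).mono h1
  have h1 : ∀ᵐ n ∂ gw ξ, ∀ p ∈ {p : I | ∃ q : ℚ, (q : ℝ) = p},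
      (p : ℝ) < Real.exp (-(b / ((r : ℝ) - 1))) → perc (treeGraph n) r p = 0 := by
    rw [ae_ball_iff hcount]
    intro p _
    by_cases hp : (p : ℝ) < Real.exp (-(b / ((r : ℝ) - 1)))
    · filter_upwards [ae_perc r hr b hb ξ h0 hmean p hp] with n hn _
      exact hn
    · exact Filter.Eventually.of_forall fun n hn => absurd hn hp
  filter_upwards [h1] with n hn
  apply le_csInf
  · exact ⟨1, 1, rfl, perc_one _ _⟩
  · rintro x ⟨p, rfl, hp⟩
    by_contra hcon
    push Not at hcon
    obtain ⟨q, hq1, hq2⟩ := exists_rat_btwn hcon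
    have hb0 : 0 ≤ b := le_trans (by positivity) hb
    have he1 : Real.exp (-(b / ((r : ℝ) - 1))) ≤ 1 := by
      rw [Real.exp_le_one_iff]
      have : (0 : ℝ) < (r : ℝ) - 1 := by
        have : (2 : ℝ) ≤ r := by exact_mod_cast hr
        linarith
      have : 0 ≤ b / ((r : ℝ) - 1) := by positivity
      linarith
    have hq : (q : ℝ) ∈ Set.Icc (0 : ℝ) 1 :=
      ⟨le_trans p.2.1 hq1.le, le_trans hq2.le he1⟩
    have h2 := hn ⟨q, hq⟩ ⟨q, rfl⟩ hq2
    have h3 : perc (treeGraph n) r p ≤ perc (treeGraph n) r ⟨q, hq⟩ :=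
      perc_mono _ _ (by exact hq1.le)
    rw [h2] at h3
    exact absurd (lt_of_lt_of_le hp h3) (lt_irrefl _)

end Pool.Agent.Results.MP_12274d_pr.ExponentialLowerBound
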